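import Pool.Agent.FHQ.StmtsZ

/-!
# Squad FHQ, row ZFN: from large primes to the ultraproduct
-/

open scoped BigOperators

noncomputable section

namespace Pool.Agent.FHQ.H1

/-- the families which are given by the formulas `F1` are definable -/
theorem ld_real {n : ℕ} (ψ : F1 n) : LD n (fun _ K _ A x => ψ.real K A.E x) := by
  induction ψ with
  | eq P => exact LD.eq P
  | rv P Q => exact LD.rv P Q
  | not φ ih => exact LD.not ih
  | and φ ψ ih1 ih2 => exact LD.and ih1 ih2
  | ex φ ih => exact LD.ex ih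

theorem cls_surj (F : ℕ → Type) [∀ i, Field (F i)] (U : Ultrafilter ℕ) (a : UP F U) :
    ∃ f : ∀ i, F i, cls F U f = a := Ideal.Quotient.mk_surjective a

theorem zfn (zsf : ZsfStmt) (zcs : ZcsStmt) (zgf : ZgfStmt) (zgu : ZguStmt) : ZfnStmt := by
  intro fhd p _ U hp F _ mx hac d dK dR nK nR φ hd
  classical
  obtain ⟨ψ, hψ⟩ := zsf dK dR nK nR d φ hd
  have hG : Gd (UP F U) (UM F U mx) :=
    zgu F U mx (fun i => zgf (p i) (F i) (mx i) (hac i))
  intro α hα
  obtain ⟨β, hβ, p0, hfh⟩ := fhd d (nK + nR) (fun _ K _ A x => ψ.real K A.E x) (ld_real ψ) α hα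
  refine ⟨β, hβ, fun n hn b c hcount => ?_⟩
  -- representatives
  have hc' : ∀ i j, ∃ u : (UP F U)ˣ, rv (UP F U) (UM F U mx) u = c i j :=
    fun i j => QuotientGroup.mk_surjective (c i j)
  choose c' hc' using hc'
  have hw : ∀ (i : Fin n) (j : Fin (nK + nR)), ∃ f : ∀ t, F t, cls F U f =
      (Fin.append (b i) (fun j => (c' i j : UP F U)) : Fin (nK + nR) → UP F U) j :=
    fun i j => cls_surj F U _
  choose w hw using hw
  -- consistency
  let CU : Finset (Fin n) → Prop := fun s =>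
    ∃ (x : Fin dK → UP F U) (ξ : Fin dR → RV (UP F U) (UM F U mx)), ∀ i ∈ s,
      φ.real (UP F U) (UM F U mx) (Fin.append x (b i)) (Fin.append ξ (c i))
  let CT : ℕ → Finset (Fin n) → Prop := fun t s =>
    ∃ x : Fin d → F t, ∀ i ∈ s, ψ.real (F t) (Em (mx t)) (Fin.append x (fun j => w i j t))
  have h1 : ∀ s, CU s ↔ ∀ᶠ t in (U : Filter ℕ), CT t s := by
    intro s
    have e1 := hψ (UP F U) (UM F U mx) hG {i // i ∈ s} (fun i => b i.1) (fun i => c' i.1)
    have e2 := zcs F U mx d (nK + nR) n ψ w s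
    change CU s ↔ _
    refine Iff.trans ?_ e2
    have e3 : CU s ↔ ∃ (x : Fin dK → UP F U) (ξ : Fin dR → RV (UP F U) (UM F U mx)),
        ∀ i : {i // i ∈ s}, φ.real (UP F U) (UM F U mx) (Fin.append x (b i.1))
          (Fin.append ξ (fun j => rv (UP F U) (UM F U mx) (c' i.1 j))) := by
      have e4 : ∀ i, (fun j => rv (UP F U) (UM F U mx) (c' i j)) = c i :=
        fun i => funext fun j => hc' i j
      constructor
      · rintro ⟨x, ξ, h⟩
        refine ⟨x, ξ, fun i => ?_⟩
        rw [e4]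
        exact h i.1 i.2
      · rintro ⟨x, ξ, h⟩
        refine ⟨x, ξ, fun i hi => ?_⟩
        have h5 := h ⟨i, hi⟩
        rw [e4] at h5
        exact h5
    rw [e3, e1]
    have e5 : ∀ i, (fun j => cls F U (w i j)) =
        (Fin.append (b i) (fun j => (c' i j : UP F U)) : Fin (nK + nR) → UP F U) :=
      fun i => funext fun j => hw i j
    constructor
    · rintro ⟨x, h⟩
      refine ⟨x, fun i hi => ?_⟩
      rw [e5]
      exact h ⟨i, hi⟩
    · rintro ⟨x, h⟩
      refine ⟨x, fun i => ?_⟩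
      have h5 := h i.1 i.2
      rw [e5] at h5
      exact h5
  have h2 : ∀ᶠ t in (U : Filter ℕ), ∀ s, (CT t s ↔ CU s) := by
    rw [Filter.eventually_all]
    intro s
    by_cases hs : CU s
    · exact ((h1 s).1 hs).mono fun t ht => ⟨fun _ => hs, fun _ => ht⟩
    · have h3 : ∀ᶠ t in (U : Filter ℕ), ¬ CT t s := by
        rw [Ultrafilter.eventually_not]
        exact fun h => hs ((h1 s).2 h)
      exact h3.mono fun t ht => ⟨fun h => absurd h ht, fun h => absurd h hs⟩
  have h3 : ∀ᶠ t in (U : Filter ℕ), p0 ≤ p t := by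
    have h4 : ∀ᶠ t in (U : Filter ℕ), ∀ q ∈ Finset.range p0, q.Prime → p t ≠ q := by
      rw [Filter.eventually_all_finset]
      intro q _
      by_cases hq : q.Prime
      · exact (hp q hq).mono fun t ht _ => ht
      · exact Filter.Eventually.of_forall fun t h => absurd h hq
    refine h4.mono fun t ht => ?_
    by_contra h5
    exact ht (p t) (Finset.mem_range.2 (not_le.1 h5)) (Fact.out) rfl
  obtain ⟨t, ht2, ht3⟩ := (h2.and h3).exists
  obtain ⟨A, hA⟩ := hac t
  have hE : A.E = Em (mx t) := funext fun x => funext fun y => propext (hA x y)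
  have h6 := hfh (p t) (F t) A ht3 n hn (fun i j => w i j t)
  simp only [hE] at h6
  have h7 : {s : Finset (Fin n) | s.card = d + 1 ∧ ∃ x : Fin d → F t, ∀ i ∈ s,
      ψ.real (F t) (Em (mx t)) (Fin.append x (fun j => w i j t))} =
      {s : Finset (Fin n) | s.card = d + 1 ∧
      ∃ (x : Fin dK → UP F U) (ξ : Fin dR → RV (UP F U) (UM F U mx)), ∀ i ∈ s,
        φ.real (UP F U) (UM F U mx) (Fin.append x (b i)) (Fin.append ξ (c i))} := by
    ext s
    exact and_congr Iff.rfl (ht2 s)
  rw [h7] at h6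
  obtain ⟨I, hI1, hI2⟩ := h6 hcount
  exact ⟨I, hI1, (ht2 I).1 hI2⟩

end Pool.Agent.FHQ.H1
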