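import Pool.Agent.FHQ.StmtsZ

/-!
# Squad FHQ, row ZLF: replacing the variables of the sort `RV` by variables of the field sort
-/

open scoped BigOperators

noncomputable section

namespace Pool.Agent.FHQ.H1

/-- renaming of variables -/
theorem ren {n : ℕ} (ψ : F1 n) : ∀ {m : ℕ} (σ : Fin n → Fin m), ∃ ψ' : F1 m,
    ∀ (K : Type) [Field K] (R : K → K → Prop) (x : Fin m → K),
      ψ'.real K R x ↔ ψ.real K R (x ∘ σ) := by
  induction ψ with
  | eq P =>
    intro m σ
    refine ⟨F1.eq (MvPolynomial.rename σ P), fun K _ R x => ?_⟩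
    change MvPolynomial.aeval x (MvPolynomial.rename σ P) = 0 ↔
      MvPolynomial.aeval (x ∘ σ) P = 0
    rw [MvPolynomial.aeval_rename]
  | rv P Q =>
    intro m σ
    refine ⟨F1.rv (MvPolynomial.rename σ P) (MvPolynomial.rename σ Q), fun K _ R x => ?_⟩
    change R (MvPolynomial.aeval x (MvPolynomial.rename σ P))
      (MvPolynomial.aeval x (MvPolynomial.rename σ Q)) ↔
      R (MvPolynomial.aeval (x ∘ σ) P) (MvPolynomial.aeval (x ∘ σ) Q)
    rw [MvPolynomial.aeval_rename, MvPolynomial.aeval_rename]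
  | not φ ih =>
    intro m σ
    obtain ⟨ψ', h⟩ := ih σ
    exact ⟨F1.not ψ', fun K _ R x => not_congr (h K R x)⟩
  | and φ ψ ih1 ih2 =>
    intro m σ
    obtain ⟨ψ1, h1⟩ := ih1 σ
    obtain ⟨ψ2, h2⟩ := ih2 σ
    exact ⟨F1.and ψ1 ψ2, fun K _ R x => and_congr (h1 K R x) (h2 K R x)⟩
  | ex φ ih =>
    intro m σ
    obtain ⟨ψ', h⟩ := ih (Fin.cons 0 (fun i => (σ i).succ) : Fin _ → Fin (m + 1))
    refine ⟨F1.ex ψ', fun K _ R x => ?_⟩
    change (∃ a : K, ψ'.real K R (Fin.cons a x)) ↔ ∃ a : K, φ.real K R (Fin.cons a (x ∘ σ))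
    refine exists_congr fun a => ?_
    rw [h K R]
    have h1 : (Fin.cons a x : Fin (m + 1) → K) ∘
        (Fin.cons 0 (fun i => (σ i).succ) : Fin _ → Fin (m + 1)) = Fin.cons a (x ∘ σ) := by
      funext i
      refine Fin.cases ?_ (fun j => ?_) i
      · rfl
      · simp only [Function.comp_apply, Fin.cons_succ]
    rw [h1]

theorem em_iff {K : Type} [Field K] {mx : Set K} (hG : Gd K mx) (u v : Kˣ) :
    Em mx (u : K) (v : K) ↔ rv K mx u = rv K mx v := by
  rw [hG u v]
  exact ⟨fun h => h.2.2, fun h => ⟨u.ne_zero, v.ne_zero, h⟩⟩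

theorem em_ne {K : Type} [Field K] {mx : Set K} {a b : K} (h : Em mx a b) : a ≠ 0 := h.1

theorem rv_mul {K : Type} [Field K] {mx : Set K} (u v : Kˣ) :
    rv K mx u * rv K mx v = rv K mx (u * v) := rfl

theorem rv_surj {K : Type} [Field K] {mx : Set K} (ζ : RV K mx) : ∃ u : Kˣ, rv K mx u = ζ :=
  QuotientGroup.mk_surjective ζ

theorem zlf : ZlfStmt := by
  intro k r φ
  induction φ with
  | @eqK k r P =>
    refine ⟨F1.eq (MvPolynomial.rename (Fin.castAdd r) P), fun K _ mx hG x u => ?_⟩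
    change MvPolynomial.aeval x P = 0 ↔ MvPolynomial.aeval (Fin.append x fun j => (u j : K))
      (MvPolynomial.rename (Fin.castAdd r) P) = 0
    rw [MvPolynomial.aeval_rename]
    have h1 : (Fin.append x fun j => (u j : K)) ∘ Fin.castAdd r = x := by
      funext i
      exact Fin.append_left _ _ _
    rw [h1]
  | @rvEq k r P j =>
    refine ⟨F1.rv (MvPolynomial.rename (Fin.castAdd r) P) (MvPolynomial.X (Fin.natAdd k j)),
      fun K _ mx hG x u => ?_⟩
    change (∃ v : Kˣ, (v : K) = MvPolynomial.aeval x P ∧ rv K mx v = rv K mx (u j)) ↔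
      Em mx (MvPolynomial.aeval (Fin.append x fun j => (u j : K))
        (MvPolynomial.rename (Fin.castAdd r) P))
        (MvPolynomial.aeval (Fin.append x fun j => (u j : K)) (MvPolynomial.X (Fin.natAdd k j)))
    rw [MvPolynomial.aeval_rename, MvPolynomial.aeval_X, Fin.append_right]
    have h1 : (Fin.append x fun j => (u j : K)) ∘ Fin.castAdd r = x := by
      funext i
      exact Fin.append_left _ _ _
    rw [h1]
    constructor
    · rintro ⟨v, hv, h2⟩
      rw [← hv, em_iff hG]
      exact h2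
    · intro h
      refine ⟨Units.mk0 _ (em_ne h), rfl, ?_⟩
      rw [← em_iff hG]
      exact h
  | @eqRV k r i j =>
    refine ⟨F1.rv (MvPolynomial.X (Fin.natAdd k i)) (MvPolynomial.X (Fin.natAdd k j)),
      fun K _ mx hG x u => ?_⟩
    change rv K mx (u i) = rv K mx (u j) ↔
      Em mx (MvPolynomial.aeval (Fin.append x fun j => (u j : K)) (MvPolynomial.X (Fin.natAdd k i)))
        (MvPolynomial.aeval (Fin.append x fun j => (u j : K)) (MvPolynomial.X (Fin.natAdd k j)))
    rw [MvPolynomial.aeval_X, MvPolynomial.aeval_X, Fin.append_right, Fin.append_right,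
      em_iff hG]
  | @mul k r i j l =>
    refine ⟨F1.rv (MvPolynomial.X (Fin.natAdd k i) * MvPolynomial.X (Fin.natAdd k j))
      (MvPolynomial.X (Fin.natAdd k l)), fun K _ mx hG x u => ?_⟩
    change rv K mx (u i) * rv K mx (u j) = rv K mx (u l) ↔
      Em mx (MvPolynomial.aeval (Fin.append x fun j => (u j : K))
        (MvPolynomial.X (Fin.natAdd k i) * MvPolynomial.X (Fin.natAdd k j)))
        (MvPolynomial.aeval (Fin.append x fun j => (u j : K)) (MvPolynomial.X (Fin.natAdd k l)))
    rw [map_mul, MvPolynomial.aeval_X, MvPolynomial.aeval_X, MvPolynomial.aeval_X,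
      Fin.append_right, Fin.append_right, Fin.append_right, ← Units.val_mul, em_iff hG, rv_mul]
  | @add k r i j l =>
    refine ⟨F1.ex (F1.ex (F1.and (F1.and
      (F1.rv (MvPolynomial.X 1) (MvPolynomial.X (Fin.natAdd k i).succ.succ))
      (F1.rv (MvPolynomial.X 0) (MvPolynomial.X (Fin.natAdd k j).succ.succ)))
      (F1.rv (MvPolynomial.X 1 + MvPolynomial.X 0)
        (MvPolynomial.X (Fin.natAdd k l).succ.succ)))), fun K _ mx hG x u => ?_⟩
    have key : ∀ (a b : K) (j : Fin r), (Fin.cons b (Fin.cons a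
        (Fin.append x fun j => (u j : K)) : Fin (k + r + 1) → K) : Fin (k + r + 2) → K)
        (Fin.natAdd k j).succ.succ = (u j : K) := by
      intro a b j
      rw [Fin.cons_succ, Fin.cons_succ, Fin.append_right]
    change (∃ v₁ v₂ w : Kˣ, rv K mx v₁ = rv K mx (u i) ∧ rv K mx v₂ = rv K mx (u j) ∧
      rv K mx w = rv K mx (u l) ∧ (v₁ : K) + (v₂ : K) = (w : K)) ↔
      ∃ a : K, ∃ b : K, (Em mx (MvPolynomial.aeval _ (MvPolynomial.X 1))
          (MvPolynomial.aeval _ (MvPolynomial.X (Fin.natAdd k i).succ.succ)) ∧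
        Em mx (MvPolynomial.aeval _ (MvPolynomial.X 0))
          (MvPolynomial.aeval _ (MvPolynomial.X (Fin.natAdd k j).succ.succ))) ∧
        Em mx (MvPolynomial.aeval _ (MvPolynomial.X 1 + MvPolynomial.X 0))
          (MvPolynomial.aeval _ (MvPolynomial.X (Fin.natAdd k l).succ.succ))
    simp only [map_add, MvPolynomial.aeval_X, key]
    constructor
    · rintro ⟨v₁, v₂, w, h1, h2, h3, h4⟩
      refine ⟨v₁, v₂, ⟨?_, ?_⟩, ?_⟩
      · change Em mx (v₁ : K) (u i : K)
        rw [em_iff hG]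
        exact h1
      · change Em mx (v₂ : K) (u j : K)
        rw [em_iff hG]
        exact h2
      · change Em mx ((v₁ : K) + (v₂ : K)) (u l : K)
        rw [h4, em_iff hG]
        exact h3
    · rintro ⟨a, b, ⟨h1, h2⟩, h3⟩
      change Em mx a (u i : K) at h1
      change Em mx b (u j : K) at h2
      change Em mx (a + b) (u l : K) at h3
      refine ⟨Units.mk0 a (em_ne h1), Units.mk0 b (em_ne h2), Units.mk0 (a + b) (em_ne h3),
        ?_, ?_, ?_, rfl⟩
      · rw [← em_iff hG]
        exact h1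
      · rw [← em_iff hG]
        exact h2
      · rw [← em_iff hG]
        exact h3
  | @ind k r s θ e ih =>
    obtain ⟨ψ, hψ⟩ := ih
    obtain ⟨ψ', hψ'⟩ := ren ψ
      (Fin.append (Fin.elim0 : Fin 0 → Fin (k + r)) (fun i => Fin.natAdd k (e i)))
    refine ⟨ψ', fun K _ mx hG x u => ?_⟩
    have h1 := hψ K mx hG Fin.elim0 (fun i => u (e i))
    change θ.real K mx Fin.elim0 (fun i => rv K mx (u (e i))) ↔ _
    rw [h1, hψ' K]
    have h2 : (Fin.append x fun j => (u j : K)) ∘
        (Fin.append (Fin.elim0 : Fin 0 → Fin (k + r)) (fun i => Fin.natAdd k (e i))) =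
        Fin.append (Fin.elim0 : Fin 0 → K) (fun i => (u (e i) : K)) := by
      funext i
      refine Fin.addCases (fun i => i.elim0) (fun i => ?_) i
      rw [Function.comp_apply, Fin.append_right, Fin.append_right, Fin.append_right]
    rw [h2]
  | @not k r φ ih =>
    obtain ⟨ψ, hψ⟩ := ih
    exact ⟨F1.not ψ, fun K _ mx hG x u => not_congr (hψ K mx hG x u)⟩
  | @and k r φ ψ ih1 ih2 =>
    obtain ⟨ψ1, h1⟩ := ih1
    obtain ⟨ψ2, h2⟩ := ih2
    exact ⟨F1.and ψ1 ψ2, fun K _ mx hG x u => and_congr (h1 K mx hG x u) (h2 K mx hG x u)⟩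
  | @exK k r φ ih =>
    obtain ⟨ψ, hψ⟩ := ih
    obtain ⟨ψ', hψ'⟩ := ren ψ
      (Fin.append (Fin.cons 0 (fun i => (Fin.castAdd r i).succ) : Fin (k + 1) → Fin (k + r + 1))
        (fun j => (Fin.natAdd k j).succ))
    refine ⟨F1.ex ψ', fun K _ mx hG x u => ?_⟩
    change (∃ a : K, φ.real K mx (Fin.cons a x) (fun j => rv K mx (u j))) ↔
      ∃ a : K, ψ'.real K (Em mx) (Fin.cons a (Fin.append x fun j => (u j : K)))
    refine exists_congr fun a => ?_
    rw [hψ K mx hG, hψ' K]
    have h2 : (Fin.cons a (Fin.append x fun j => (u j : K)) : Fin (k + r + 1) → K) ∘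
        (Fin.append (Fin.cons 0 (fun i => (Fin.castAdd r i).succ) :
          Fin (k + 1) → Fin (k + r + 1)) (fun j => (Fin.natAdd k j).succ)) =
        Fin.append (Fin.cons a x : Fin (k + 1) → K) (fun j => (u j : K)) := by
      funext i
      refine Fin.addCases (fun i => ?_) (fun i => ?_) i
      · rw [Function.comp_apply, Fin.append_left, Fin.append_left]
        refine Fin.cases ?_ (fun j => ?_) i
        · rfl
        · rw [Fin.cons_succ, Fin.cons_succ, Fin.cons_succ, Fin.append_left]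
      · rw [Function.comp_apply, Fin.append_right, Fin.append_right, Fin.cons_succ,
          Fin.append_right]
    rw [h2]
  | @exRV k r φ ih =>
    obtain ⟨ψ, hψ⟩ := ih
    obtain ⟨ψ', hψ'⟩ := ren ψ
      (Fin.append (fun i => (Fin.castAdd r i).succ)
        (Fin.cons 0 (fun j => (Fin.natAdd k j).succ) : Fin (r + 1) → Fin (k + r + 1)))
    refine ⟨F1.ex (F1.and (F1.not (F1.eq (MvPolynomial.X 0))) ψ'), fun K _ mx hG x u => ?_⟩
    change (∃ ζ : RV K mx, φ.real K mx x (Fin.cons ζ (fun j => rv K mx (u j)))) ↔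
      ∃ a : K, (¬ MvPolynomial.aeval (Fin.cons a (Fin.append x fun j => (u j : K)) :
        Fin (k + r + 1) → K) (MvPolynomial.X 0) = 0) ∧
        ψ'.real K (Em mx) (Fin.cons a (Fin.append x fun j => (u j : K)))
    have key : ∀ w : Kˣ, φ.real K mx x (Fin.cons (rv K mx w) (fun j => rv K mx (u j))) ↔
        ψ'.real K (Em mx) (Fin.cons (w : K) (Fin.append x fun j => (u j : K))) := by
      intro w
      have h1 := hψ K mx hG x (Fin.cons w u)
      have h2 : (fun j => rv K mx ((Fin.cons w u : Fin (r + 1) → Kˣ) j)) =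
          (Fin.cons (rv K mx w) (fun j => rv K mx (u j)) : Fin (r + 1) → RV K mx) := by
        funext i
        refine Fin.cases ?_ (fun j => ?_) i
        · rfl
        · rw [Fin.cons_succ, Fin.cons_succ]
      rw [h2] at h1
      rw [h1, hψ' K]
      have h3 : (Fin.cons (w : K) (Fin.append x fun j => (u j : K)) : Fin (k + r + 1) → K) ∘
          (Fin.append (fun i => (Fin.castAdd r i).succ)
            (Fin.cons 0 (fun j => (Fin.natAdd k j).succ) : Fin (r + 1) → Fin (k + r + 1))) =
          Fin.append x (fun j => (((Fin.cons w u : Fin (r + 1) → Kˣ) j : Kˣ) : K)) := by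
        funext i
        refine Fin.addCases (fun i => ?_) (fun i => ?_) i
        · rw [Function.comp_apply, Fin.append_left, Fin.append_left, Fin.cons_succ,
            Fin.append_left]
        · rw [Function.comp_apply, Fin.append_right, Fin.append_right]
          refine Fin.cases ?_ (fun j => ?_) i
          · rfl
          · rw [Fin.cons_succ, Fin.cons_succ, Fin.cons_succ, Fin.append_right]
      rw [h3]
    constructor
    · rintro ⟨ζ, hζ⟩
      obtain ⟨w, rfl⟩ := rv_surj ζ
      refine ⟨w, ?_, (key w).1 hζ⟩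
      rw [MvPolynomial.aeval_X]
      exact w.ne_zero
    · rintro ⟨a, ha, h⟩
      rw [MvPolynomial.aeval_X] at ha
      refine ⟨rv K mx (Units.mk0 a ha), ?_⟩
      rw [key]
      exact h

end Pool.Agent.FHQ.H1
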